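import Mathlib
import Pool.Agent.H3.SqProof

set_option autoImplicit false

open Pool.Agent.H3.Sq

namespace Pool.Agent.Results.MP_cd0533_lc.NonzeroAndPositive

/-- The sets `{x : x ≠ 0}` and `{x : x > 0}` are positive existentially definable, without
parameters, in `(ℚ; 0, 1, +, P)`, `P` the set of squares. -/
theorem result : PosDef {x : ℚ | x ≠ 0} ∧ PosDef {x : ℚ | 0 < x} :=
  ⟨ne_def, pos_def⟩

end Pool.Agent.Results.MP_cd0533_lc.NonzeroAndPositive
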